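import Pool.Agent.Run7.h133.RayDefs
import Pool.Agent.Run7.h133.RayEight
import Pool.Agent.Run7.h133.RayY164
import Pool.Agent.Run7.h133.RayY170

set_option autoImplicit false

/-!
# Four excluded minors for the ternary balanced matroids (MP_717409_co)
-/

namespace Pool.Agent.Results.MP_717409_co.FourExcludedMinors

open Matroid Pool.Agent.Run7.h133.Ray Pool.Agent.Helper998.VecMatroid

/-- `M` is negatively correlated: `b_ef b ≤ b_e b_f` for all distinct elements `e`, `f`. -/
def NegCorrelated {α : Type} (M : Matroid α) : Prop :=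
  ∀ e ∈ M.E, ∀ f ∈ M.E, e ≠ f →
    Set.ncard {B : Set α | M.IsBase B ∧ e ∈ B ∧ f ∈ B} * Set.ncard {B : Set α | M.IsBase B} ≤
      Set.ncard {B : Set α | M.IsBase B ∧ e ∈ B} * Set.ncard {B : Set α | M.IsBase B ∧ f ∈ B}

/-- `M` is balanced: all its minors are negatively correlated. -/
def Balanced {α : Type} (M : Matroid α) : Prop := ∀ N : Matroid α, N ≤m M → NegCorrelated N

/-- `M` is in the class of the ternary balanced matroids. -/
def InT {α : Type} (M : Matroid α) : Prop := RepOver (ZMod 3) M ∧ Balanced M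

/-- `M` is an excluded minor for the class of the ternary balanced matroids. -/
def IsExcludedMinor {α : Type} (M : Matroid α) : Prop :=
  ¬ InT M ∧ ∀ N : Matroid α, N <m M → InT N

/-- the check that the counting inequality fails -/
def failN (L : List ℕ) (e f : ℕ) : Bool :=
  Nat.blt ((keep e L).length * (keep f L).length) ((keep e (keep f L)).length * L.length)

theorem count_eq {n : ℕ} {M : Matroid (Fin n)} {L : List ℕ} (h : HasBases M L)
    (R : Set (Fin n) → Prop) (q : ℕ → Bool) (hq : ∀ m ∈ L, q m = true ↔ R (fs n m)) :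
    Set.ncard {B : Set (Fin n) | M.IsBase B ∧ R B} = (L.filter q).length := by
  classical
  have h1 := ncard_sum fun B : Set (Fin n) => M.IsBase B ∧ R B
  have h2 := h.sum_eq (fun A => R A) q hq fun _ => (1 : ℝ)
  have h5 : ((L.filter q).map fun _ => (1 : ℝ)).sum = ((L.filter q).length : ℝ) := by simp
  have h3 : (Set.ncard {B : Set (Fin n) | M.IsBase B ∧ R B} : ℝ) = ((L.filter q).length : ℝ) := by
    rw [h1, ← h5, ← h2]
    refine Finset.sum_congr rfl fun A _ => ?_
    by_cases hA : M.IsBase (A : Set (Fin n)) ∧ R (A : Set (Fin n))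
    · rw [if_pos hA, if_pos hA]
    · rw [if_neg hA, if_neg hA]
  exact_mod_cast h3

theorem not_negCorrelated {n : ℕ} {M : Matroid (Fin n)} {L : List ℕ} (h : HasBases M L)
    {e f : Fin n} (hef : e ≠ f) (hf : failN L e f = true) : ¬ NegCorrelated M := by
  intro hN
  have h1 := hN e (by rw [h.ground]; trivial) f (by rw [h.ground]; trivial) hef
  rw [count_eq h (fun B => e ∈ B ∧ f ∈ B) (fun m => tb m e && tb m f)
      (by intro m _; simp [mem_fs, tb_eq]),
    count_eq h (fun B => e ∈ B) (fun m => tb m e) (by intro m _; simp [mem_fs, tb_eq]),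
    count_eq h (fun B => f ∈ B) (fun m => tb m f) (by intro m _; simp [mem_fs, tb_eq]),
    h.ncard] at h1
  unfold failN keep at hf
  rw [List.filter_filter] at hf
  have h2 : (Nat.blt _ _ = true) := hf
  rw [Nat.blt_eq] at h2
  exact absurd h1 (not_le.2 h2)

theorem excluded_of {r k : ℕ} {D : Matrix (Fin r) (Fin k) (ZMod 3)} {L : List ℕ}
    (h : HasBases (vecMatroid (ZMod 3) (stdVec D)) L ∧
      (vecMatroid (ZMod 3) (stdVec D)).eRank = (r : ℕ)) (hr3 : 3 ≤ r) (hk : 3 ≤ k)
    {c d : ℕ} (hc : r ≤ c + 4) (hd : k ≤ d + 4) (hchk : chkAll (r + k) c d L = true)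
    {e f : Fin (r + k)} (hef : e ≠ f) (hf : failN L e f = true) :
    IsExcludedMinor (colMatroid D) := by
  refine ⟨fun hT => not_negCorrelated h.1 hef hf (hT.2 _ IsMinor.refl), fun N hN => ?_⟩
  refine ⟨(repOver_vec D).minor hN.isMinor, fun N' hN' e he f hf hef => ?_⟩
  exact minor_counts h.1 h.2 hr3 (by omega) hc (by omega) hchk (hN'.trans_isStrictMinor hN)
    e f he hf hef

/-- the rank and the number of the bases -/
noncomputable def inv (M : Σ n : ℕ, Matroid (Fin n)) : ℕ × ℕ :=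
  (M.2.eRank.toNat, Set.ncard {B | M.2.IsBase B})

theorem inv_eq {r k b : ℕ} {D : Matrix (Fin r) (Fin k) (ZMod 3)} {L : List ℕ}
    (h : HasBases (vecMatroid (ZMod 3) (stdVec D)) L ∧
      (vecMatroid (ZMod 3) (stdVec D)).eRank = (r : ℕ)) (hb : L.length = b) :
    inv ⟨r + k, colMatroid D⟩ = (r, b) := by
  unfold inv
  rw [← hb, ← h.1.ncard]
  show ((vecMatroid (ZMod 3) (stdVec D)).eRank.toNat, _) = _
  rw [h.2]
  rfl

/-- Four pairwise non-isomorphic ternary matroids, given by matrices `[I | D]` over `GF(3)`: each of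
them is an excluded minor for the class of the ternary balanced matroids. -/
theorem result :
    let Ms : List (Σ n : ℕ, Matroid (Fin n)) := [
      ⟨4 + 4, colMatroid (K := ZMod 3)
        !![1, 1, 1, 1; 1, 1, 1, 0; 1, 0, 0, 1; 0, 1, 0, 1]⟩,
      ⟨4 + 4, colMatroid (K := ZMod 3)
        !![1, 1, 0, 1; 1, 0, 1, 1; 1, 0, 1, 0; 0, 1, 1, 1]⟩,
      ⟨5 + 5, colMatroid (K := ZMod 3)
        !![1, 1, 1, 1, 1; 1, 2, 1, 2, 1; 1, 1, 2, 0, 2; 1, 0, 1, 1, 1; 0, 1, 0, 0, 2]⟩,
      ⟨5 + 5, colMatroid (K := ZMod 3)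
        !![1, 1, 1, 1, 0; 1, 2, 0, 0, 1; 0, 1, 1, 2, 1; 0, 1, 1, 1, 0; 0, 1, 0, 1, 1]⟩]
    (∀ M ∈ Ms, IsExcludedMinor M.2) ∧ Ms.Pairwise fun M N => ¬ Iso M.2 N.2 := by
  intro Ms
  have e0 : IsExcludedMinor (colMatroid E8.X49) :=
    excluded_of (c := 0) (d := 0) E8.X49_hb (by norm_num) (by norm_num) (by norm_num) (by norm_num)
      (by decide +kernel) (e := 6) (f := 7) (by decide) (by decide +kernel)
  have i0 : inv ⟨4 + 4, colMatroid E8.X49⟩ = (4, 49) :=
    inv_eq E8.X49_hb E8.X49_len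
  have e1 : IsExcludedMinor (colMatroid E8.X52) :=
    excluded_of (c := 0) (d := 0) E8.X52_hb (by norm_num) (by norm_num) (by norm_num) (by norm_num)
      (by decide +kernel) (e := 2) (f := 5) (by decide) (by decide +kernel)
  have i1 : inv ⟨4 + 4, colMatroid E8.X52⟩ = (4, 52) :=
    inv_eq E8.X52_hb E8.X52_len
  have e2 : IsExcludedMinor (colMatroid BB.Y164) :=
    excluded_of (c := 1) (d := 1) BB.Y164_hb (by norm_num) (by norm_num) (by norm_num) (by norm_num)
      BB.Y164_chk (e := 6) (f := 7) (by decide) (by decide +kernel)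
  have i2 : inv ⟨5 + 5, colMatroid BB.Y164⟩ = (5, 164) :=
    inv_eq BB.Y164_hb BB.Y164_len
  have e3 : IsExcludedMinor (colMatroid BB.Y170) :=
    excluded_of (c := 1) (d := 1) BB.Y170_hb (by norm_num) (by norm_num) (by norm_num) (by norm_num)
      BB.Y170_chk (e := 1) (f := 3) (by decide) (by decide +kernel)
  have i3 : inv ⟨5 + 5, colMatroid BB.Y170⟩ = (5, 170) :=
    inv_eq BB.Y170_hb BB.Y170_len
  have hMs : Ms = [⟨4 + 4, colMatroid E8.X49⟩, ⟨4 + 4, colMatroid E8.X52⟩,
    ⟨5 + 5, colMatroid BB.Y164⟩, ⟨5 + 5, colMatroid BB.Y170⟩] := rfl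
  refine ⟨?_, ?_⟩
  · intro M hM
    rw [hMs] at hM
    simp only [List.mem_cons, List.not_mem_nil, or_false] at hM
    rcases hM with rfl | rfl | rfl | rfl
    · exact e0
    · exact e1
    · exact e2
    · exact e3
  · have h1 : (Ms.map inv).Nodup := by
      rw [hMs]
      simp only [List.map_cons, List.map_nil, i0, i1, i2, i3]
      decide
    have h2 : Ms.Pairwise fun M N => inv M ≠ inv N := List.pairwise_map.1 h1
    refine h2.imp ?_
    intro M N h hiso
    apply h
    unfold inv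
    rw [hiso.ncard, hiso.eRank]

end Pool.Agent.Results.MP_717409_co.FourExcludedMinors
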